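import Pool.Agent.helper85.FC.Defs
import Pool.Agent.helper85.MT.Char2
import Pool.Agent.helper74.TG.SW

/-!
# FC project, module B3: small conductors, from the Siegel-Walfisz theorem
-/

namespace Pool.Agent.helper85.FC

open Finset Real ArithmeticFunction Pool.Agent.helper39.MT

/-- partial summation against the weight `wt 1 a` -/
lemma B3_abel : ∃ C₀ : ℝ, 0 < C₀ ∧ ∀ (a B : ℝ) (κ : ℕ → ℂ), 0 ≤ B →
    (∀ y, ⌊Real.exp a⌋₊ ≤ y → y ≤ NN 1 a → ‖∑ k ∈ Ioc 0 y, κ k‖ ≤ B) →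
    ‖∑ k ∈ Ioc 0 (NN 1 a), ((wt 1 a k : ℝ) : ℂ) * κ k‖ ≤ C₀ * B * Real.exp (-a) := by
  obtain ⟨K, hK0, hK⟩ := Pool.Agent.helper85.MT.V_lip
  refine ⟨2 * (4 * (K + 2)), by positivity, ?_⟩
  intro a B κ hB0 hB
  set N := NN 1 a with hN
  set Y := ⌊Real.exp a⌋₊ with hY
  have hYN : Y ≤ N := by
    rw [hY, hN, NN]
    exact Nat.floor_le_floor (Real.exp_le_exp.2 (by linarith))
  set κ' : ℕ → ℂ := fun k => if Y < k ∧ k ≤ N then κ k else 0 with hκ'
  have hsumIoc : ∀ y, Y ≤ y → y ≤ N → ∑ k ∈ Ioc 0 y, κ' k = ∑ k ∈ Ioc Y y, κ k := by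
    intro y hy hyN
    rw [← sum_Ioc_consecutive κ' (Nat.zero_le Y) hy]
    have h1 : ∑ k ∈ Ioc 0 Y, κ' k = 0 := by
      refine sum_eq_zero fun k hk => ?_
      rw [mem_Ioc] at hk
      simp only [hκ']
      rw [if_neg (by omega)]
    rw [h1, zero_add]
    refine sum_congr rfl fun k hk => ?_
    rw [mem_Ioc] at hk
    simp only [hκ']
    rw [if_pos ⟨hk.1, hk.2.trans hyN⟩]
  have hbdd : ∀ y, Y ≤ y → y ≤ N → ‖∑ k ∈ Ioc 0 y, κ' k‖ ≤ 2 * B := by
    intro y hy hyN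
    rw [hsumIoc y hy hyN]
    have h1 : ∑ k ∈ Ioc Y y, κ k = ∑ k ∈ Ioc 0 y, κ k - ∑ k ∈ Ioc 0 Y, κ k := by
      rw [← sum_Ioc_consecutive κ (Nat.zero_le Y) hy]; ring
    rw [h1]
    have h2 := hB y hy hyN
    have h3 := hB Y le_rfl hYN
    exact (norm_sub_le _ _).trans (by linarith)
  have hpart : ∀ y : ℕ, ‖∑ k ∈ Ioc 0 y, κ' k‖ ≤ 2 * B := by
    intro y
    rcases lt_or_ge y Y with h | h
    · have h1 : ∑ k ∈ Ioc 0 y, κ' k = 0 := by
        refine sum_eq_zero fun k hk => ?_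
        rw [mem_Ioc] at hk
        simp only [hκ']
        rw [if_neg (by omega)]
      rw [h1, norm_zero]; positivity
    · rcases le_or_gt y N with h' | h'
      · exact hbdd y h h'
      · have h1 : ∑ k ∈ Ioc 0 y, κ' k = ∑ k ∈ Ioc 0 N, κ' k := by
          rw [← sum_Ioc_consecutive κ' (Nat.zero_le N) h'.le]
          have h2 : ∑ k ∈ Ioc N y, κ' k = 0 := by
            refine sum_eq_zero fun k hk => ?_
            rw [mem_Ioc] at hk
            simp only [hκ']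
            rw [if_neg (by omega)]
          rw [h2, add_zero]
        rw [h1]
        exact hbdd N hYN le_rfl
  have h1 := Pool.Agent.helper85.MT.abel_tv (fun k => wt 1 a k) κ' (2 * B) hpart N
    (Pool.Agent.helper85.MT.wt_right one_pos (by rw [← hN]; exact Nat.lt_succ_self N))
  have h2 := Pool.Agent.helper85.MT.tv_le hK0 hK (a := a) (L := 1) le_rfl (d := 1) one_pos
    (fun _ => 1) (fun _ => zero_le_one) (fun k hk => ⟨le_rfl, by rw [sub_self]; positivity⟩) N 1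
    (fun _ _ => le_rfl)
  simp only [one_mul] at h2
  have h3 : ∑ k ∈ Ioc 0 N, ((wt 1 a k : ℝ) : ℂ) * κ' k = ∑ k ∈ Ioc 0 N, ((wt 1 a k : ℝ) : ℂ) * κ k := by
    refine sum_congr rfl fun k hk => ?_
    rw [mem_Ioc] at hk
    by_cases h : Y < k
    · simp only [hκ']
      rw [if_pos ⟨h, hk.2⟩]
    · have hk' : (k : ℝ) ≤ Real.exp (1 / 2 + a) := by
        have h4 : (k : ℝ) ≤ Real.exp a := (Nat.le_floor_iff (Real.exp_pos _).le).1 (not_lt.1 h)
        exact h4.trans (Real.exp_le_exp.2 (by linarith))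
      rw [Pool.Agent.helper85.MT.wt_left one_pos hk']
      simp
  rw [h3] at h1
  refine h1.trans ?_
  have h4 : Real.exp a ≤ Real.exp (1 / 2 + a) := Real.exp_le_exp.2 (by linarith)
  have h5 : 4 / Real.exp (1 / 2 + a) ≤ 4 * Real.exp (-a) := by
    rw [Real.exp_neg, ← div_eq_mul_inv]
    exact div_le_div_of_nonneg_left (by norm_num) (Real.exp_pos _) h4
  calc 2 * B * ∑ k ∈ Ioc 0 N, |wt 1 a (k + 1) - wt 1 a k|
      ≤ 2 * B * ((1 + (K + 1)) * (4 / Real.exp (1 / 2 + a))) := by gcongr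
    _ ≤ 2 * B * ((1 + (K + 1)) * (4 * Real.exp (-a))) := by gcongr
    _ = 2 * (4 * (K + 2)) * B * Real.exp (-a) := by ring

/-- for `y ≥ ⌊e^a⌋` there is a real `x ≥ e^a` with `⌊x⌋ = y` -/
lemma B3_real {a : ℝ} {y : ℕ} (h1 : ⌊Real.exp a⌋₊ ≤ y) (h2 : y ≤ NN 1 a) :
    ∃ x : ℝ, ⌊x⌋₊ = y ∧ Real.exp a ≤ x ∧ x ≤ Real.exp (1 + a) ∧ |x - y| ≤ 1 := by
  have hy : (y : ℝ) ≤ Real.exp (1 + a) :=
    le_trans (by exact_mod_cast h2) (Nat.floor_le (Real.exp_pos _).le)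
  rcases le_or_gt (Real.exp a) y with h | h
  · exact ⟨y, Nat.floor_natCast y, h, hy, by simp⟩
  · have h3 : ⌊Real.exp a⌋₊ = y := by
      refine le_antisymm h1 ?_
      exact Nat.le_floor h.le
    refine ⟨Real.exp a, h3, le_rfl, Real.exp_le_exp.2 (by linarith), ?_⟩
    have h4 := Nat.lt_floor_add_one (Real.exp a)
    rw [h3] at h4
    rw [abs_le]
    constructor <;> linarith

/-- B3: small conductors (from the Siegel-Walfisz theorem `psi_char`). -/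
theorem small_TT (B K : ℕ) : ∃ C a₁ : ℝ, 0 < C ∧ ∀ a : ℝ, a₁ ≤ a → ∀ q : ℕ, 2 ≤ q →
    (q : ℝ) ≤ a ^ B → ∀ χ : DirichletCharacter ℂ q, χ ≠ 1 → ‖TT χ 1 a‖ ≤ C / a ^ K := by
  obtain ⟨C₀, hC₀, hab⟩ := B3_abel
  obtain ⟨C, x₀, hC, hpsi⟩ := Pool.Agent.helper74.TG.psi_char K B
  refine ⟨C₀ * C * Real.exp 1, max 1 x₀, by positivity, ?_⟩
  intro a ha q hq hqa χ hχ
  have ha1 : 1 ≤ a := (le_max_left _ _).trans ha
  have hax : x₀ ≤ a := (le_max_right _ _).trans ha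
  have ha0 : 0 < a := by linarith
  have hbound : ∀ y, ⌊Real.exp a⌋₊ ≤ y → y ≤ NN 1 a →
      ‖∑ k ∈ Ioc 0 y, (vonMangoldt k : ℂ) * χ k‖ ≤ C * Real.exp (1 + a) / a ^ K := by
    intro y h1 h2
    obtain ⟨x, hxy, hx1, hx2, -⟩ := B3_real h1 h2
    have hlog : a ≤ Real.log x := by
      rw [Real.le_log_iff_exp_le (lt_of_lt_of_le (Real.exp_pos _) hx1)]
      exact hx1
    have hxx : x₀ ≤ x := by
      have : a ≤ Real.exp a := by
        have := Real.add_one_le_exp a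
        linarith
      linarith
    have h3 := hpsi x hxx q hq (hqa.trans (pow_le_pow_left₀ ha0.le hlog B)) χ hχ
    rw [hxy] at h3
    refine h3.trans ?_
    gcongr
  have h1 := hab a (C * Real.exp (1 + a) / a ^ K) (fun k => (vonMangoldt k : ℂ) * χ k)
    (by positivity) hbound
  have h2 : TT χ 1 a = ∑ k ∈ Ioc 0 (NN 1 a), ((wt 1 a k : ℝ) : ℂ) * ((vonMangoldt k : ℂ) * χ k) := by
    rw [TT]
    exact sum_congr rfl fun n _ => by ring
  rw [h2]
  refine h1.trans (le_of_eq ?_)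
  rw [Real.exp_add, Real.exp_neg]
  field_simp

end Pool.Agent.helper85.FC
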