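import Pool.Agent.helper63.FC.B3
import Pool.Agent.helper99.FC.T01
import Pool.Agent.helper35.MT.TR8

/-!
# FC project, module B4: the masses
-/

namespace Pool.Agent.helper85.FC

open Finset Real ArithmeticFunction Pool.Agent.helper39.MT

lemma B4_harm_upper {K M : ℕ} (hK : 1 ≤ K) (hKM : K ≤ M) :
    ∑ n ∈ Ioc K M, (1 : ℝ) / n ≤ Real.log M - Real.log K := by
  induction M, hKM using Nat.le_induction with
  | base => simp
  | succ M hM ih =>
    rw [Finset.sum_Ioc_succ_top hM]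
    have hM0 : (0 : ℝ) < M := by exact_mod_cast lt_of_lt_of_le hK hM
    have h1 : 1 - ((M : ℝ) / (M + 1)) ≤ -Real.log ((M : ℝ) / (M + 1)) := by
      have := Real.log_le_sub_one_of_pos (show (0 : ℝ) < (M : ℝ) / (M + 1) by positivity)
      linarith
    rw [Real.log_div hM0.ne' (by positivity)] at h1
    have h2 : 1 - ((M : ℝ) / (M + 1)) = 1 / (M + 1) := by field_simp; ring
    rw [h2] at h1
    push_cast
    linarith

lemma B4_harm_lower {K M : ℕ} (hKM : K ≤ M) :
    Real.log (M + 1) - Real.log (K + 1) ≤ ∑ n ∈ Ioc K M, (1 : ℝ) / n := by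
  induction M, hKM using Nat.le_induction with
  | base => simp
  | succ M hM ih =>
    rw [Finset.sum_Ioc_succ_top hM]
    have hM0 : (0 : ℝ) < (M : ℝ) + 1 := by positivity
    have h1 : Real.log (((M : ℝ) + 1 + 1) / (M + 1)) ≤ ((M : ℝ) + 1 + 1) / (M + 1) - 1 :=
      Real.log_le_sub_one_of_pos (by positivity)
    rw [Real.log_div (by positivity) (by positivity)] at h1
    have h2 : ((M : ℝ) + 1 + 1) / (M + 1) - 1 = 1 / (M + 1) := by field_simp; ring
    rw [h2] at h1
    push_cast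
    linarith

/-- B4: the masses (from the prime number theorem `psi_pnt`). -/
theorem mass_bounds : ∃ a₁ : ℝ, ∀ a : ℝ, a₁ ≤ a → 1 / 8 ≤ mass a ∧ mass a ≤ 1 := by
  refine ⟨8, fun a ha => ⟨?_, ?_⟩⟩
  · set K := ⌊Real.exp (a + 5 / 8)⌋₊ with hK
    set M := ⌊Real.exp (a + 7 / 8)⌋₊ with hM
    have hKM : K ≤ M := Nat.floor_le_floor (Real.exp_le_exp.2 (by linarith))
    have hMN : M ≤ NN 1 a := Nat.floor_le_floor (Real.exp_le_exp.2 (by linarith))
    have h1 : ∑ n ∈ Ioc K M, (1 : ℝ) / n ≤ mass a := by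
      unfold mass
      have h2 : ∑ n ∈ Ioc K M, (1 : ℝ) / n = ∑ n ∈ Ioc K M, wt 1 a n := by
        refine sum_congr rfl fun n hn => ?_
        rw [mem_Ioc] at hn
        have hn0 : (0 : ℝ) < n := by exact_mod_cast lt_of_le_of_lt (Nat.zero_le _) hn.1
        rw [wt, div_one, V_eq_one]
        · have : Real.exp (a + 5 / 8) < n := (Nat.floor_lt (Real.exp_pos _).le).1 hn.1
          have := (Real.lt_log_iff_exp_lt hn0).2 this
          linarith
        · have : (n : ℝ) ≤ Real.exp (a + 7 / 8) := (Nat.le_floor_iff (Real.exp_pos _).le).1 hn.2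
          have := (Real.log_le_iff_le_exp hn0).2 this
          linarith
      rw [h2]
      refine sum_le_sum_of_subset_of_nonneg ?_ fun n _ _ =>
        Pool.Agent.helper85.MT.wt_nonneg _ _ _
      intro n hn
      rw [mem_Ioc] at hn ⊢
      omega
    refine le_trans ?_ h1
    refine le_trans ?_ (B4_harm_lower hKM)
    have h2 : a + 7 / 8 ≤ Real.log (M + 1) := by
      rw [Real.le_log_iff_exp_le (by positivity)]
      exact (Nat.lt_floor_add_one _).le
    have h3 : Real.log (K + 1) ≤ a + 3 / 4 := by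
      rw [Real.log_le_iff_le_exp (by positivity)]
      have h4 : (K : ℝ) ≤ Real.exp (a + 5 / 8) := Nat.floor_le (Real.exp_pos _).le
      have h5 : Real.exp (a + 3 / 4) = Real.exp (a + 5 / 8) * Real.exp (1 / 8) := by
        rw [← Real.exp_add]; congr 1; ring
      have h6 : (1 : ℝ) + 1 / 8 ≤ Real.exp (1 / 8) := by
        have := Real.add_one_le_exp (1 / 8 : ℝ)
        linarith
      have h7 : (8 : ℝ) ≤ Real.exp (a + 5 / 8) := by
        have := Real.add_one_le_exp (a + 5 / 8)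
        linarith
      rw [h5]
      nlinarith
    linarith
  · set K := ⌊Real.exp (a + 1 / 2)⌋₊ with hK
    have hKN : K ≤ NN 1 a := Nat.floor_le_floor (Real.exp_le_exp.2 (by linarith))
    have hE : (8 : ℝ) ≤ Real.exp a := by
      have := Real.add_one_le_exp a
      linarith
    have h6 : Real.exp (a + 1 / 2) = Real.exp a * Real.exp (1 / 2) := by rw [← Real.exp_add]
    have h7 : (1 : ℝ) + 1 / 2 ≤ Real.exp (1 / 2) := by
      have := Real.add_one_le_exp (1 / 2 : ℝ)
      linarith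
    have hKe : Real.exp a ≤ K := by
      have h5 := Nat.lt_floor_add_one (Real.exp (a + 1 / 2))
      rw [← hK, h6] at h5
      nlinarith
    have hK1 : 1 ≤ K := by
      have : (1 : ℝ) ≤ K := by linarith
      exact_mod_cast this
    have h1 : mass a ≤ ∑ n ∈ Ioc K (NN 1 a), (1 : ℝ) / n := by
      unfold mass
      rw [← sum_Ioc_consecutive (fun n => wt 1 a n) (Nat.zero_le K) hKN]
      have h2 : ∑ n ∈ Ioc 0 K, wt 1 a n = 0 := by
        refine sum_eq_zero fun n hn => ?_
        rw [mem_Ioc] at hn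
        refine Pool.Agent.helper85.MT.wt_left one_pos ?_
        have : (n : ℝ) ≤ Real.exp (a + 1 / 2) := (Nat.le_floor_iff (Real.exp_pos _).le).1 hn.2
        rwa [add_comm] at this
      rw [h2, zero_add]
      exact sum_le_sum fun n _ => Pool.Agent.helper85.MT.wt_le _ _ _
    refine h1.trans ((B4_harm_upper hK1 hKN).trans ?_)
    have h2 : Real.log (NN 1 a) ≤ 1 + a := by
      have hN1 : 1 ≤ NN 1 a := hK1.trans hKN
      rw [Real.log_le_iff_le_exp (by exact_mod_cast hN1)]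
      exact Nat.floor_le (Real.exp_pos _).le
    have h3 : a ≤ Real.log K := by
      rw [Real.le_log_iff_exp_le (by exact_mod_cast hK1)]
      exact hKe
    linarith

theorem mass_shift (A : ℕ) (hA : 0 < A) : ∃ C a₁ : ℝ, 0 < C ∧ ∀ a : ℝ, a₁ ≤ a →
    |mass (a + Real.log A) - mass a| ≤ C * Real.exp (-a) := by
  obtain ⟨C, hC, h⟩ := wt_equi1
  refine ⟨C, 1, hC, fun a ha => ?_⟩
  have hA' : (1 : ℝ) ≤ A := by exact_mod_cast hA
  have hA0 : (0 : ℝ) < A := by linarith
  have hlogA : 0 ≤ Real.log A := Real.log_nonneg hA'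
  set a' := a + Real.log A with ha'
  have h1 := h a' (by linarith) A 0 hA
  -- the multiples of `A`
  have hNN : NN 1 a' / A = NN 1 a := by
    have e1 : Real.exp (1 + a') = A * Real.exp (1 + a) := by
      rw [ha', ← add_assoc, Real.exp_add (1 + a), Real.exp_log hA0]; ring
    rw [NN, NN, e1]
    rw [← Nat.floor_div_natCast, mul_div_cancel_left₀ _ hA0.ne']
  have h2 : ∑ n ∈ Ioc 0 (NN 1 a') with n ≡ 0 [MOD A], wt 1 a' n = mass a / A := by
    have e2 : (Ioc 0 (NN 1 a')).filter (fun n => n ≡ 0 [MOD A]) =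
        (Ioc 0 (NN 1 a)).image (fun n => A * n) := by
      ext n
      rw [mem_filter, mem_Ioc, mem_image]
      constructor
      · rintro ⟨⟨hn0, hnN⟩, hmod⟩
        rw [Nat.modEq_zero_iff_dvd] at hmod
        obtain ⟨n', rfl⟩ := hmod
        refine ⟨n', ?_, rfl⟩
        rw [mem_Ioc, ← hNN]
        refine ⟨Nat.pos_of_ne_zero (by rintro rfl; simp at hn0), ?_⟩
        rw [Nat.le_div_iff_mul_le hA, mul_comm]
        exact hnN
      · rintro ⟨n', hn', rfl⟩
        rw [mem_Ioc, ← hNN] at hn'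
        refine ⟨⟨Nat.mul_pos hA hn'.1, ?_⟩, ?_⟩
        · have := (Nat.le_div_iff_mul_le hA).1 hn'.2
          rwa [mul_comm] at this
        · rw [Nat.modEq_zero_iff_dvd]
          exact dvd_mul_right _ _
    rw [e2, sum_image (fun x _ y _ hxy => Nat.eq_of_mul_eq_mul_left hA hxy)]
    unfold mass
    rw [sum_div]
    refine sum_congr rfl fun n hn => ?_
    rw [mem_Ioc] at hn
    have hn0 : (0 : ℝ) < n := by exact_mod_cast hn.1
    rw [wt, wt]
    push_cast
    rw [Real.log_mul hA0.ne' hn0.ne', ha']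
    have e3 : (Real.log A + Real.log n - (a + Real.log A)) / 1 = (Real.log n - a) / 1 := by ring
    rw [e3]
    field_simp
  rw [h2] at h1
  have h3 : mass a / A - mass a' / A = -(mass a' - mass a) / A := by ring
  rw [h3, abs_div, abs_neg, abs_of_pos hA0, div_le_iff₀ hA0] at h1
  refine h1.trans (le_of_eq ?_)
  have h4 : Real.exp (-a') = Real.exp (-a) / A := by
    rw [ha', neg_add, Real.exp_add, Real.exp_neg (Real.log A), Real.exp_log hA0]
    rfl
  rw [h4]
  field_simp

lemma B4_lam (n : ℕ) : (vonMangoldt n : ℝ) = lam n + h35_np n := by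
  unfold lam h35_np
  split_ifs with h
  · rw [vonMangoldt_apply_prime h, add_zero]
  · rw [zero_add]

theorem pmass_mass : ∃ C a₁ : ℝ, 0 < C ∧ ∀ a : ℝ, a₁ ≤ a → |pmass a - mass a| ≤ C / a := by
  obtain ⟨C₀, hC₀, hab⟩ := B3_abel
  obtain ⟨C, x₀, hC, hpsi⟩ := Pool.Agent.helper74.TG.psi_pnt 1
  obtain ⟨C₁, hC₁, htail⟩ := h35_tail_le
  refine ⟨C₀ * (C * Real.exp 1 + 1) + 4 * C₁, max 1 x₀, by positivity, ?_⟩
  intro a ha
  have ha1 : 1 ≤ a := (le_max_left _ _).trans ha
  have hax : x₀ ≤ a := (le_max_right _ _).trans ha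
  have ha0 : 0 < a := by linarith
  have haexp : a ≤ Real.exp a := by
    have := Real.add_one_le_exp a
    linarith
  have hbound : ∀ y, ⌊Real.exp a⌋₊ ≤ y → y ≤ NN 1 a →
      ‖∑ k ∈ Ioc 0 y, (((vonMangoldt k - 1 : ℝ)) : ℂ)‖ ≤ C * Real.exp (1 + a) / a + 1 := by
    intro y h1 h2
    obtain ⟨x, hxy, hx1, hx2, hx3⟩ := B3_real h1 h2
    have hlog : a ≤ Real.log x := by
      rw [Real.le_log_iff_exp_le (lt_of_lt_of_le (Real.exp_pos _) hx1)]
      exact hx1
    have h3 := hpsi x (by linarith)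
    rw [hxy, pow_one] at h3
    rw [← Complex.ofReal_sum, Complex.norm_real, Real.norm_eq_abs, sum_sub_distrib, sum_const,
      Nat.card_Ioc, Nat.sub_zero, nsmul_eq_mul, mul_one]
    have h4 : ∑ n ∈ Ioc 0 y, vonMangoldt n - (y : ℝ) =
        (∑ n ∈ Ioc 0 y, vonMangoldt n - x) + (x - y) := by ring
    rw [h4]
    refine (abs_add_le _ _).trans (add_le_add (h3.trans ?_) hx3)
    gcongr
  have h1 := hab a (C * Real.exp (1 + a) / a + 1) (fun k => ((vonMangoldt k - 1 : ℝ) : ℂ))
    (by positivity) hbound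
  have h2 : ∑ k ∈ Ioc 0 (NN 1 a), ((wt 1 a k : ℝ) : ℂ) * ((vonMangoldt k - 1 : ℝ) : ℂ) =
      (((∑ n ∈ Ioc 0 (NN 1 a), vonMangoldt n * wt 1 a n) - mass a : ℝ) : ℂ) := by
    unfold mass
    rw [← sum_sub_distrib]
    push_cast
    exact sum_congr rfl fun n _ => by ring
  rw [h2, Complex.norm_real, Real.norm_eq_abs] at h1
  -- prime powers
  have h3 : ∑ n ∈ Ioc 0 (NN 1 a), vonMangoldt n * wt 1 a n = pmass a +
      ∑ n ∈ Ioc 0 (NN 1 a), h35_np n * wt 1 a n := by
    unfold pmass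
    rw [← sum_add_distrib]
    refine sum_congr rfl fun n _ => ?_
    rw [B4_lam n]; ring
  set K := ⌊Real.exp a⌋₊ with hK
  have hK1 : 1 ≤ K := (Nat.one_le_floor_iff _).2 (Real.one_le_exp (by linarith))
  have hKN : K ≤ NN 1 a := Nat.floor_le_floor (Real.exp_le_exp.2 (by linarith))
  have h4 : ∑ n ∈ Ioc 0 (NN 1 a), h35_np n * wt 1 a n ≤ C₁ / √K := by
    refine le_trans ?_ (htail K (NN 1 a) hK1 hKN)
    rw [← sum_Ioc_consecutive (fun n => h35_np n * wt 1 a n) (Nat.zero_le K) hKN]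
    have h5 : ∑ n ∈ Ioc 0 K, h35_np n * wt 1 a n = 0 := by
      refine sum_eq_zero fun n hn => ?_
      rw [mem_Ioc] at hn
      rw [Pool.Agent.helper85.MT.wt_left one_pos, mul_zero]
      have : (n : ℝ) ≤ Real.exp a := (Nat.le_floor_iff (Real.exp_pos _).le).1 hn.2
      exact this.trans (Real.exp_le_exp.2 (by linarith))
    rw [h5, zero_add]
    refine sum_le_sum fun n _ => ?_
    rw [div_eq_mul_one_div]
    exact mul_le_mul_of_nonneg_left (Pool.Agent.helper85.MT.wt_le _ _ _) (h35_np_nonneg n)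
  have h4' : 0 ≤ ∑ n ∈ Ioc 0 (NN 1 a), h35_np n * wt 1 a n :=
    sum_nonneg fun n _ => mul_nonneg (h35_np_nonneg n) (Pool.Agent.helper85.MT.wt_nonneg _ _ _)
  have h6 : C₁ / √K ≤ 4 * C₁ / a := by
    have h7 : Real.exp a / 2 ≤ K := by
      have h8 := Nat.lt_floor_add_one (Real.exp a)
      rw [← hK] at h8
      have h9 : (1 : ℝ) ≤ K := by exact_mod_cast hK1
      linarith
    have h8 : (a / 4) ^ 2 ≤ K := by
      have h9 := Real.quadratic_le_exp_of_nonneg ha0.le
      nlinarith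
    have h9 : a / 4 ≤ √K := Real.le_sqrt_of_sq_le h8
    calc C₁ / √K ≤ C₁ / (a / 4) := by gcongr
      _ = 4 * C₁ / a := by field_simp
  have h7 : C₀ * (C * Real.exp (1 + a) / a + 1) * Real.exp (-a) ≤
      C₀ * (C * Real.exp 1 + 1) / a := by
    have h8 : Real.exp (-a) ≤ 1 / a := by
      rw [Real.exp_neg, ← one_div]
      exact one_div_le_one_div_of_le ha0 haexp
    have h9 : C₀ * (C * Real.exp (1 + a) / a + 1) * Real.exp (-a) =
        C₀ * (C * Real.exp 1 / a + Real.exp (-a)) := by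
      rw [Real.exp_add, Real.exp_neg]
      field_simp
    rw [h9]
    calc C₀ * (C * Real.exp 1 / a + Real.exp (-a)) ≤ C₀ * (C * Real.exp 1 / a + 1 / a) := by
          gcongr
      _ = _ := by ring
  have h10 : pmass a - mass a = ((∑ n ∈ Ioc 0 (NN 1 a), vonMangoldt n * wt 1 a n) - mass a) -
      ∑ n ∈ Ioc 0 (NN 1 a), h35_np n * wt 1 a n := by rw [h3]; ring
  rw [h10]
  refine (abs_sub _ _).trans ?_
  rw [abs_of_nonneg h4']
  calc _ ≤ C₀ * (C * Real.exp 1 + 1) / a + 4 * C₁ / a :=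
        add_le_add (h1.trans h7) (h4.trans h6)
    _ = _ := by ring

end Pool.Agent.helper85.FC
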