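import Pool.Agent.helper85.FC.Defs
import Pool.Agent.helper85.MT.Large

/-!
# FC project, module B1: the bilinear part of the Bombieri-Vinogradov theorem
-/

namespace Pool.Agent.helper85.FC

open Finset Real ArithmeticFunction Pool.Agent.helper39.MT Pool.Agent.helper85.BVP
  Pool.Agent.helper85.MT MeasureTheory

/-- the bilinear form with general coefficients -/
noncomputable def B1_D (f g : ℕ → ℝ) (N : ℕ) (a : ℝ) {r : ℕ} (χ : DirichletCharacter ℂ r) : ℂ :=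
  ∑ m ∈ Ioc 0 N, ∑ n ∈ Ioc 0 N,
      (((f m / m : ℝ) : ℂ) * χ m) * (((g n / n : ℝ) : ℂ) * χ n)
        * (V (Real.log m + Real.log n - a) : ℂ)

lemma B1_S4 {a : ℝ} {r : ℕ} (χ : DirichletCharacter ℂ r) (U : ℕ) :
    S4 χ 1 a U = B1_D (alpha U) (beta U) (NN 1 a) a χ := by
  set N := NN 1 a with hN
  rw [S4, ← hN, B1_D]
  refine sum_congr rfl fun m hm => ?_
  rw [mem_Ioc] at hm
  have hm' : (0 : ℝ) < m := by exact_mod_cast hm.1
  have h2 : ∑ n ∈ Ioc 0 (N / m), (beta U n : ℂ) * (χ ((m * n : ℕ) : ZMod r) * (wt 1 a (m * n) : ℂ))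
      = ∑ n ∈ Ioc 0 N, (beta U n : ℂ) * (χ ((m * n : ℕ) : ZMod r) * (wt 1 a (m * n) : ℂ)) := by
    refine sum_subset (Ioc_subset_Ioc_right (Nat.div_le_self N m)) ?_
    intro n hn hn'
    rw [mem_Ioc] at hn hn'
    have h3 : N / m < n := by
      by_contra h
      push Not at h
      exact hn' ⟨hn.1, h⟩
    have h4 : N < m * n := by
      rw [Nat.div_lt_iff_lt_mul hm.1] at h3
      rwa [mul_comm]
    rw [wt_right one_pos (by rw [← hN]; exact h4)]
    simp
  rw [h2, mul_sum]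
  refine sum_congr rfl fun n hn => ?_
  rw [mem_Ioc] at hn
  have hn' : (0 : ℝ) < n := by exact_mod_cast hn.1
  rw [wt]
  push_cast
  rw [Real.log_mul hm'.ne' hn'.ne', map_mul, div_one]
  have hm2 : (m : ℂ) ≠ 0 := by exact_mod_cast hm'.ne'
  have hn2 : (n : ℂ) ≠ 0 := by exact_mod_cast hn'.ne'
  field_simp

/-- separation of variables -/
lemma B1_sep {Vh : ℝ → ℂ} (hc : Continuous Vh) (hi : Integrable Vh)
    (hV : ∀ u : ℝ, (V u : ℂ) = ∫ ξ : ℝ, ee ξ u * Vh ξ) (f g : ℕ → ℝ) (N : ℕ) (a : ℝ)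
    {r : ℕ} (χ : DirichletCharacter ℂ r) :
    B1_D f g N a χ = ∫ ξ : ℝ, PP f N 1 ξ χ * PP g N 1 ξ χ * (ee ξ (-a) * Vh ξ) := by
  rw [B1_D]
  have h5 : ∀ m ∈ Ioc 0 N, ∑ n ∈ Ioc 0 N,
      (((f m / m : ℝ) : ℂ) * χ m) * (((g n / n : ℝ) : ℂ) * χ n)
        * (V (Real.log m + Real.log n - a) : ℂ)
      = ∫ ξ : ℝ, ∑ n ∈ Ioc 0 N, (((f m / m : ℝ) : ℂ) * χ m) * (((g n / n : ℝ) : ℂ) * χ n)
        * (ee ξ (Real.log m + Real.log n - a) * Vh ξ) := by
    intro m _
    rw [integral_finsetSum]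
    · refine sum_congr rfl fun n _ => ?_
      rw [hV, integral_const_mul]
    · intro n _
      exact (int_ee hc hi _).const_mul _
  rw [sum_congr rfl h5, ← integral_finsetSum]
  · refine integral_congr_ae (Filter.Eventually.of_forall fun ξ => ?_)
    simp only [PP]
    rw [sum_mul_sum, sum_mul]
    refine sum_congr rfl fun m _ => ?_
    rw [sum_mul]
    refine sum_congr rfl fun n _ => ?_
    have e : Real.log m + Real.log n - a = Real.log m / 1 + (Real.log n / 1 + -a) := by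
      ring
    rw [e, ee_add, ee_add]
    ring
  · intro m _
    refine integrable_finsetSum _ fun n _ => ?_
    exact (int_ee hc hi _).const_mul _

open Classical in
/-- large sieve for one block -/
lemma B1_PP (f : ℕ → ℝ) (N Q M K : ℕ) (L ξ : ℝ)
    (hf : ∀ n ≤ N, f n ≠ 0 → M < n ∧ n ≤ M + K) :
    ∑ r ∈ Icc 1 Q, (r : ℝ) / Nat.totient r * ∑ χ : DirichletCharacter ℂ r with χ.IsPrimitive,
        ‖PP f N L ξ χ‖ ^ 2 ≤ 5 * ((K : ℝ) + Q ^ 2) *
          ∑ n ∈ Ioc M (M + K), (if n ≤ N then f n ^ 2 / (n : ℝ) ^ 2 else 0) := by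
  set g : ℕ → ℂ := fun m => if m ≤ N then ((f m / m : ℝ) : ℂ) * ee ξ (Real.log m / L) else 0 with hg
  have h1 : ∀ (r : ℕ) (χ : DirichletCharacter ℂ r),
      PP f N L ξ χ = ∑ n ∈ Ioc M (M + K), g n * χ n := by
    intro r χ
    have e2 : PP f N L ξ χ = ∑ n ∈ Ioc 0 N, g n * χ n := by
      unfold PP
      refine sum_congr rfl fun n hn => ?_
      rw [mem_Ioc] at hn
      simp only [hg]
      rw [if_pos hn.2]
    have hz : ∀ n, n ≤ N → f n = 0 → g n * χ n = 0 := by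
      intro n hn h0
      simp only [hg]
      rw [if_pos hn, h0]
      simp
    have e3 : ∑ n ∈ Ioc 0 N, g n * χ n = ∑ n ∈ Ioc 0 N ∩ Ioc M (M + K), g n * χ n := by
      symm
      refine sum_subset inter_subset_left ?_
      intro n hn hn'
      rw [mem_Ioc] at hn
      refine hz n hn.2 ?_
      by_contra h0
      exact hn' (mem_inter.2 ⟨mem_Ioc.2 hn, mem_Ioc.2 (hf n hn.2 h0)⟩)
    rw [e2, e3]
    refine sum_subset inter_subset_right ?_
    intro n hn hn'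
    rw [mem_Ioc] at hn
    have h2 : N < n := by
      by_contra h
      push Not at h
      exact hn' (mem_inter.2 ⟨mem_Ioc.2 ⟨by omega, h⟩, mem_Ioc.2 hn⟩)
    simp only [hg]
    rw [if_neg (by omega), zero_mul]
  simp_rw [h1]
  refine (mult_large_sieve Q M K g).trans ?_
  refine mul_le_mul_of_nonneg_left ?_ (by positivity)
  refine sum_le_sum fun n hn => ?_
  simp only [hg]
  split_ifs with h
  · rw [norm_mul, norm_ee, mul_one, Complex.norm_real, Real.norm_eq_abs, sq_abs, div_pow]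
  · simp

open Classical in
/-- the index set -/
noncomputable def B1_S (Q : ℕ) : Finset (Σ r : ℕ, DirichletCharacter ℂ r) :=
  (Icc 1 Q).sigma (fun r => {χ : DirichletCharacter ℂ r | χ.IsPrimitive})

open Classical in
lemma B1_sig (Q : ℕ) (G : (r : ℕ) → DirichletCharacter ℂ r → ℝ) :
    ∑ r ∈ Icc 1 Q, (r : ℝ) / Nat.totient r * ∑ χ : DirichletCharacter ℂ r with χ.IsPrimitive, G r χ
      = ∑ i ∈ B1_S Q, (i.1 : ℝ) / Nat.totient i.1 * G i.1 i.2 := by
  rw [B1_S, sum_sigma]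
  refine sum_congr rfl fun r _ => ?_
  rw [mul_sum]

/-- bilinear forms by the mean squares of the Dirichlet polynomials -/
lemma B1_bil {Vh : ℝ → ℂ} (hc : Continuous Vh) (hi : Integrable Vh)
    (hV : ∀ u : ℝ, (V u : ℂ) = ∫ ξ : ℝ, ee ξ u * Vh ξ) (f g : ℕ → ℝ) (N Q : ℕ) (a X Y : ℝ)
    (hX : ∀ ξ, ∑ i ∈ B1_S Q, (i.1 : ℝ) / Nat.totient i.1 * ‖PP f N 1 ξ i.2‖ ^ 2 ≤ X)
    (hY : ∀ ξ, ∑ i ∈ B1_S Q, (i.1 : ℝ) / Nat.totient i.1 * ‖PP g N 1 ξ i.2‖ ^ 2 ≤ Y) :
    ∑ i ∈ B1_S Q, (i.1 : ℝ) / Nat.totient i.1 * ‖B1_D f g N a i.2‖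
      ≤ √(X * Y) * ∫ ξ, ‖Vh ξ‖ := by
  have hint : ∀ (r : ℕ) (χ : DirichletCharacter ℂ r), Integrable (fun ξ : ℝ =>
      PP f N 1 ξ χ * PP g N 1 ξ χ * (ee ξ (-a) * Vh ξ)) := by
    intro r χ
    have h1 := ((int_ee hc hi (-a)).norm.const_mul
      ((∑ m ∈ Ioc 0 N, |f m / m|) * (∑ m ∈ Ioc 0 N, |g m / m|)))
    refine h1.mono' ?_ ?_
    · exact (((PP_cont _ _ _ χ).mul (PP_cont _ _ _ χ)).mul ((ee_cont _).mul hc)).aestronglyMeasurable
    · refine Filter.Eventually.of_forall fun ξ => ?_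
      rw [norm_mul, norm_mul]
      refine mul_le_mul_of_nonneg_right ?_ (norm_nonneg _)
      exact mul_le_mul (PP_norm_le _ _ _ _ _) (PP_norm_le _ _ _ _ _) (norm_nonneg _)
        (sum_nonneg fun _ _ => abs_nonneg _)
  have h1 : ∑ i ∈ B1_S Q, (i.1 : ℝ) / Nat.totient i.1 * ‖B1_D f g N a i.2‖
      = ∑ i ∈ B1_S Q, (i.1 : ℝ) / Nat.totient i.1 * ‖∫ ξ : ℝ, PP f N 1 ξ i.2
        * PP g N 1 ξ i.2 * (ee ξ (-a) * Vh ξ)‖ := by
    refine sum_congr rfl fun i _ => ?_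
    rw [B1_sep hc hi hV]
  rw [h1]
  have h2 := sum_norm_integral_le (B1_S Q) (fun i => (i.1 : ℝ) / Nat.totient i.1)
    (fun i _ => by positivity)
    (fun i ξ => PP f N 1 ξ i.2 * PP g N 1 ξ i.2 * (ee ξ (-a) * Vh ξ))
    (fun i _ => hint i.1 i.2)
    (fun ξ => √(X * Y) * ‖Vh ξ‖) (hi.norm.const_mul _) ?_
  · refine h2.trans (le_of_eq ?_)
    rw [integral_const_mul]
  · intro ξ
    have e : ∀ i ∈ B1_S Q, (i.1 : ℝ) / Nat.totient i.1
        * ‖PP f N 1 ξ i.2 * PP g N 1 ξ i.2 * (ee ξ (-a) * Vh ξ)‖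
        = ((i.1 : ℝ) / Nat.totient i.1
        * (‖PP f N 1 ξ i.2‖ * ‖PP g N 1 ξ i.2‖)) * ‖Vh ξ‖ := by
      intro i _
      rw [norm_mul, norm_mul, norm_mul, norm_ee, one_mul]
      ring
    rw [sum_congr rfl e, ← sum_mul]
    refine mul_le_mul_of_nonneg_right ?_ (norm_nonneg _)
    exact cs_weighted (B1_S Q) (fun i => (i.1 : ℝ) / Nat.totient i.1)
      (fun i => ‖PP f N 1 ξ i.2‖) (fun i => ‖PP g N 1 ξ i.2‖)
      (fun i _ => by positivity) X Y (hX ξ) (hY ξ)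

lemma B1_logN {a : ℝ} (ha : 1 ≤ a) : Real.log (NN 1 a) ≤ a + 1 := by
  have := log_NN_le (L := 1) (a := a) zero_le_one (by linarith)
  linarith

open Classical in
/-- one dyadic block -/
lemma B1_block {Vh : ℝ → ℂ} (hc : Continuous Vh) (hi : Integrable Vh)
    (hV : ∀ u : ℝ, (V u : ℂ) = ∫ ξ : ℝ, ee ξ u * Vh ξ) {a : ℝ} (ha : 1 ≤ a) (Q U M : ℕ)
    (hU : 1 ≤ U) (hUM : U ≤ M) :
    ∑ i ∈ B1_S Q, (i.1 : ℝ) / Nat.totient i.1 *
      ‖B1_D (fun m => if M < m ∧ m ≤ M + M then alpha U m else 0) (beta U) (NN 1 a) a i.2‖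
      ≤ 15 * (a + 2) ^ 3 * (1 + Q / √U + (Q : ℝ) ^ 2 / Real.exp (a / 2)) * ∫ ξ, ‖Vh ξ‖ := by
  set N := NN 1 a with hN
  set E := Real.exp a with hE
  have hE0 : 0 < E := Real.exp_pos _
  have hU0 : (0 : ℝ) < U := by exact_mod_cast hU
  have hM0 : (0 : ℝ) < M := by exact_mod_cast lt_of_lt_of_le hU hUM
  have hUM' : (U : ℝ) ≤ M := by exact_mod_cast hUM
  set f : ℕ → ℝ := fun m => if M < m ∧ m ≤ M + M then alpha U m else 0 with hf
  set N1 : ℕ := max U ⌊E / (2 * M)⌋₊ with hN1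
  set N3 : ℕ := ⌊Real.exp (a + 1) / M⌋₊ with hN3
  set N2 : ℕ := N3 - N1 with hN2
  set g : ℕ → ℝ := fun n => if N1 < n ∧ n ≤ N3 then beta U n else 0 with hg
  set P : ℝ := max (U : ℝ) (E / (2 * M)) with hP
  have hP0 : 0 < P := lt_of_lt_of_le hU0 (le_max_left _ _)
  -- the block is given by `g`
  have hD : ∀ (r : ℕ) (χ : DirichletCharacter ℂ r), B1_D f (beta U) N a χ = B1_D f g N a χ := by
    intro r χ
    rw [B1_D, B1_D]
    refine sum_congr rfl fun m hm => sum_congr rfl fun n hn => ?_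
    rw [mem_Ioc] at hm hn
    have hm' : (0 : ℝ) < m := by exact_mod_cast hm.1
    have hn' : (0 : ℝ) < n := by exact_mod_cast hn.1
    by_cases hfm : M < m ∧ m ≤ M + M
    swap
    · have : f m = 0 := by simp only [hf]; rw [if_neg hfm]
      rw [this]; simp
    by_cases hgn : N1 < n ∧ n ≤ N3
    · have : g n = beta U n := by simp only [hg]; rw [if_pos hgn]
      rw [this]
    · have hg0 : g n = 0 := by simp only [hg]; rw [if_neg hgn]
      by_cases hnU : n ≤ U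
      · rw [hg0, beta_eq_zero U n hnU]
      have hV0 : V (Real.log m + Real.log n - a) = 0 := by
        by_contra hne
        apply hgn
        have h1 : 1 / 2 < Real.log m + Real.log n - a := by
          by_contra h
          exact hne (V_eq_zero_left (not_lt.1 h))
        have h2 : Real.log m + Real.log n - a < 1 := by
          by_contra h
          exact hne (V_eq_zero_right (not_lt.1 h))
        rw [← Real.log_mul hm'.ne' hn'.ne'] at h1 h2
        have h3 : (m : ℝ) * n < Real.exp (a + 1) := by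
          rw [← Real.log_lt_iff_lt_exp (by positivity)]
          linarith
        have h4 : E < (m : ℝ) * n := by
          rw [hE, ← Real.lt_log_iff_exp_lt (by positivity)]
          linarith
        have hmM : (M : ℝ) ≤ m := by exact_mod_cast hfm.1.le
        have hmM2 : (m : ℝ) ≤ 2 * M := by
          have : (m : ℝ) ≤ M + M := by exact_mod_cast hfm.2
          linarith
        constructor
        · rw [hN1, max_lt_iff]
          refine ⟨not_le.1 hnU, ?_⟩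
          rw [Nat.floor_lt (by positivity), div_lt_iff₀ (by positivity)]
          nlinarith
        · rw [hN3, Nat.le_floor_iff (by positivity), le_div_iff₀ hM0]
          nlinarith
      rw [hV0]; simp
  have hsum : ∑ i ∈ B1_S Q, (i.1 : ℝ) / Nat.totient i.1 * ‖B1_D f (beta U) N a i.2‖ =
      ∑ i ∈ B1_S Q, (i.1 : ℝ) / Nat.totient i.1 * ‖B1_D f g N a i.2‖ :=
    sum_congr rfl fun i _ => by rw [hD]
  rw [hsum]
  have hlogN : Real.log N ≤ a + 1 := B1_logN ha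
  -- the mean squares
  set X : ℝ := 5 * (a + 2) ^ 2 * (1 + (Q : ℝ) ^ 2 / M) with hX
  set Y : ℝ := 5 * (a + 2) ^ 4 * (6 + (Q : ℝ) ^ 2 / P) with hY
  have hXb : ∀ ξ, ∑ i ∈ B1_S Q, (i.1 : ℝ) / Nat.totient i.1 * ‖PP f N 1 ξ i.2‖ ^ 2 ≤ X := by
    intro ξ
    rw [← B1_sig Q (fun r χ => ‖PP f N 1 ξ χ‖ ^ 2)]
    refine (B1_PP f N Q M M 1 ξ ?_).trans ?_
    · intro n _ h0
      by_contra h
      apply h0
      simp only [hf]; rw [if_neg h]
    · have h1 : ∑ n ∈ Ioc M (M + M), (if n ≤ N then f n ^ 2 / (n : ℝ) ^ 2 else 0) ≤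
          ∑ n ∈ Ioc M (M + M), (a + 2) ^ 2 / (M : ℝ) ^ 2 := by
        refine sum_le_sum fun n hn => ?_
        rw [mem_Ioc] at hn
        have hn0 : (M : ℝ) ≤ n := by exact_mod_cast hn.1.le
        split_ifs with h
        · have h2 : f n ≤ a + 2 := by
            simp only [hf]; rw [if_pos hn]
            refine (alpha_le_log U n).trans ?_
            have := log_nat_le h
            linarith
          have h3 : 0 ≤ f n := by
            simp only [hf]; rw [if_pos hn]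
            exact alpha_nonneg U n
          gcongr
        · positivity
      rw [sum_const, Nat.card_Ioc, nsmul_eq_mul] at h1
      have h2 : ((M + M - M : ℕ) : ℝ) = M := by norm_num
      rw [h2] at h1
      calc 5 * ((M : ℝ) + (Q : ℝ) ^ 2) * ∑ n ∈ Ioc M (M + M), (if n ≤ N then f n ^ 2 / (n : ℝ) ^ 2 else 0)
          ≤ 5 * ((M : ℝ) + (Q : ℝ) ^ 2) * (M * ((a + 2) ^ 2 / (M : ℝ) ^ 2)) := by gcongr
        _ = X := by rw [hX]; field_simp
  have hYb : ∀ ξ, ∑ i ∈ B1_S Q, (i.1 : ℝ) / Nat.totient i.1 * ‖PP g N 1 ξ i.2‖ ^ 2 ≤ Y := by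
    intro ξ
    rw [← B1_sig Q (fun r χ => ‖PP g N 1 ξ χ‖ ^ 2)]
    refine (B1_PP g N Q N1 N2 1 ξ ?_).trans ?_
    · intro n _ h0
      by_contra h
      apply h0
      simp only [hg]; rw [if_neg (by omega)]
    · have h1 : ∑ n ∈ Ioc N1 (N1 + N2), (if n ≤ N then g n ^ 2 / (n : ℝ) ^ 2 else 0) ≤
          1 / P * (a + 2) ^ 4 := by
        have h2 : ∑ n ∈ Ioc N1 (N1 + N2), (if n ≤ N then g n ^ 2 / (n : ℝ) ^ 2 else 0) ≤
            ∑ n ∈ Ioc N1 (N1 + N2), (if n ≤ N then 1 / P * (tau n ^ 2 / n) else 0) := by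
          refine sum_le_sum fun n hn => ?_
          rw [mem_Ioc] at hn
          have hn0 : (0 : ℝ) < n := by exact_mod_cast lt_of_le_of_lt (Nat.zero_le _) hn.1
          have hPn : P ≤ n := by
            rw [hP, max_le_iff]
            rw [hN1] at hn
            refine ⟨?_, ?_⟩
            · exact_mod_cast ((le_max_left _ _).trans hn.1.le)
            · have h3 : ⌊E / (2 * M)⌋₊ < n := lt_of_le_of_lt (le_max_right _ _) hn.1
              exact (Nat.floor_lt (by positivity)).1 h3 |>.le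
          split_ifs with h
          · have h3 : g n ^ 2 ≤ tau n ^ 2 := by
              have h4 : |g n| ≤ tau n := by
                simp only [hg]
                split_ifs
                · exact abs_beta_le U n
                · rw [abs_zero]; exact tau_nonneg n
              rw [← sq_abs]
              exact pow_le_pow_left₀ (abs_nonneg _) h4 2
            calc g n ^ 2 / (n : ℝ) ^ 2 ≤ tau n ^ 2 / (n : ℝ) ^ 2 := by gcongr
              _ = 1 / n * (tau n ^ 2 / n) := by field_simp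
              _ ≤ 1 / P * (tau n ^ 2 / n) := by gcongr
          · exact le_rfl
        refine h2.trans ?_
        rw [← sum_filter, ← mul_sum]
        refine mul_le_mul_of_nonneg_left ?_ (by positivity)
        calc ∑ n ∈ Ioc N1 (N1 + N2) with n ≤ N, tau n ^ 2 / n ≤ ∑ n ∈ Ioc 0 N, tau n ^ 2 / n := by
              refine sum_le_sum_of_subset_of_nonneg ?_ (fun n _ _ => by positivity)
              intro n hn
              rw [mem_filter, mem_Ioc] at hn
              rw [mem_Ioc]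
              omega
          _ ≤ (1 + Real.log N) ^ 4 := sum_tau_sq_div_le N
          _ ≤ (a + 2) ^ 4 := by
              have := Real.log_natCast_nonneg N
              exact pow_le_pow_left₀ (by linarith) (by linarith) 4
      have h3 : (N2 : ℝ) / P ≤ 6 := by
        rw [div_le_iff₀ hP0]
        have h4 : (N2 : ℝ) ≤ N3 := by exact_mod_cast Nat.sub_le _ _
        have h5 : (N3 : ℝ) ≤ Real.exp (a + 1) / M := Nat.floor_le (by positivity)
        have h6 : Real.exp (a + 1) = Real.exp 1 * E := by rw [hE, ← Real.exp_add]; ring_nf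
        have h7 : E / (2 * M) ≤ P := le_max_right _ _
        have h8 : Real.exp 1 ≤ 3 := by
          have := Real.exp_one_lt_d9
          linarith
        calc (N2 : ℝ) ≤ Real.exp (a + 1) / M := h4.trans h5
          _ = 2 * Real.exp 1 * (E / (2 * M)) := by rw [h6]; field_simp
          _ ≤ 2 * 3 * P := by gcongr
          _ = 6 * P := by ring
      calc 5 * ((N2 : ℝ) + (Q : ℝ) ^ 2) * ∑ n ∈ Ioc N1 (N1 + N2), (if n ≤ N then g n ^ 2 / (n : ℝ) ^ 2 else 0)
          ≤ 5 * ((N2 : ℝ) + (Q : ℝ) ^ 2) * (1 / P * (a + 2) ^ 4) := by gcongr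
        _ = 5 * (a + 2) ^ 4 * ((N2 : ℝ) / P + (Q : ℝ) ^ 2 / P) := by ring
        _ ≤ Y := by rw [hY]; gcongr
  refine (B1_bil hc hi hV f g N Q a X Y hXb hYb).trans ?_
  refine mul_le_mul_of_nonneg_right ?_ (integral_nonneg fun _ => norm_nonneg _)
  rw [Real.sqrt_le_left (by positivity)]
  set H : ℝ := 1 + Q / √U + (Q : ℝ) ^ 2 / Real.exp (a / 2) with hH
  have e1 : ((Q : ℝ) / √U) ^ 2 = (Q : ℝ) ^ 2 / U := by rw [div_pow, Real.sq_sqrt hU0.le]
  have e2 : ((Q : ℝ) ^ 2 / Real.exp (a / 2)) ^ 2 = (Q : ℝ) ^ 4 / E := by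
    rw [div_pow, ← Real.exp_nat_mul, hE]
    congr 1
    · ring
    · congr 1; push_cast; ring
  have h9 : 1 + (Q : ℝ) ^ 2 / U + (Q : ℝ) ^ 4 / E ≤ H ^ 2 := by
    rw [← e1, ← e2, hH]
    have p1 : 0 ≤ (Q : ℝ) / √U := by positivity
    have p2 : 0 ≤ (Q : ℝ) ^ 2 / Real.exp (a / 2) := by positivity
    nlinarith [mul_nonneg p1 p2]
  have h10 : (1 + (Q : ℝ) ^ 2 / M) * (6 + (Q : ℝ) ^ 2 / P) ≤ 9 * H ^ 2 := by
    have q1 : (Q : ℝ) ^ 2 / M ≤ (Q : ℝ) ^ 2 / U := by gcongr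
    have q2 : (Q : ℝ) ^ 2 / P ≤ (Q : ℝ) ^ 2 / U := by
      gcongr; exact le_max_left _ _
    have q3 : (Q : ℝ) ^ 2 / M * ((Q : ℝ) ^ 2 / P) ≤ 2 * ((Q : ℝ) ^ 4 / E) := by
      have q4 : E / (2 * M) ≤ P := le_max_right _ _
      calc (Q : ℝ) ^ 2 / M * ((Q : ℝ) ^ 2 / P) ≤ (Q : ℝ) ^ 2 / M * ((Q : ℝ) ^ 2 / (E / (2 * M))) := by
            gcongr
        _ = 2 * ((Q : ℝ) ^ 4 / E) := by field_simp
    have q5 : 0 ≤ (Q : ℝ) ^ 2 / U := by positivity
    have q6 : 0 ≤ (Q : ℝ) ^ 4 / E := by positivity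
    nlinarith
  calc X * Y = 25 * (a + 2) ^ 6 * ((1 + (Q : ℝ) ^ 2 / M) * (6 + (Q : ℝ) ^ 2 / P)) := by
        rw [hX, hY]; ring
    _ ≤ 25 * (a + 2) ^ 6 * (9 * H ^ 2) := by gcongr
    _ = (15 * (a + 2) ^ 3 * H) ^ 2 := by ring

open Classical in
/-- B1: the bilinear part. -/
theorem typeII_bv : ∃ C : ℝ, 0 < C ∧ ∀ a : ℝ, 1 ≤ a → ∀ Q U : ℕ, 6 ≤ U →
    ∑ r ∈ Icc 1 Q, (r : ℝ) / Nat.totient r * ∑ χ : DirichletCharacter ℂ r with χ.IsPrimitive,
        ‖Pool.Agent.helper85.MT.S4 χ 1 a U‖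
      ≤ C * a ^ 5 * (1 + Q / √U + (Q : ℝ) ^ 2 / Real.exp (a / 2)) := by
  obtain ⟨Vh, hc, hi, hV⟩ := V_fourier
  set I := ∫ ξ, ‖Vh ξ‖ with hI
  have hI0 : 0 ≤ I := integral_nonneg fun _ => norm_nonneg _
  refine ⟨2025 * (I + 1), by positivity, ?_⟩
  intro a ha Q U hU6
  have hU : 1 ≤ U := by omega
  set N := NN 1 a with hN
  set H : ℝ := 1 + Q / √U + (Q : ℝ) ^ 2 / Real.exp (a / 2) with hH
  have hH0 : 0 ≤ H := by positivity
  set J := ⌈2 * (1 + a)⌉₊ with hJ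
  have hJle : (J : ℝ) ≤ 2 * (1 + a) + 1 := (Nat.ceil_lt_add_one (by positivity)).le
  have hNJ : N ≤ U * 2 ^ J := by
    have h1 : (N : ℝ) ≤ 2 ^ J := by
      have h2 : (N : ℝ) ≤ Real.exp (1 + a) := Nat.floor_le (Real.exp_pos _).le
      refine h2.trans ?_
      have h3 : (2 : ℝ) ^ J = Real.exp (J * Real.log 2) := by
        rw [Real.exp_nat_mul, Real.exp_log (by norm_num)]
      rw [h3]
      refine Real.exp_le_exp.mpr ?_
      have h4 : 2 * (1 + a) ≤ J := Nat.le_ceil _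
      have h5 := Real.log_two_gt_d9
      nlinarith
    have h2 : N ≤ 2 ^ J := by exact_mod_cast h1
    exact h2.trans (Nat.le_mul_of_pos_left _ hU)
  rw [B1_sig Q (fun r χ => ‖S4 χ 1 a U‖)]
  -- dyadic blocks
  have hsplit : ∀ (r : ℕ) (χ : DirichletCharacter ℂ r), S4 χ 1 a U = ∑ j ∈ range J,
      B1_D (fun m => if U * 2 ^ j < m ∧ m ≤ U * 2 ^ j + U * 2 ^ j then alpha U m else 0)
        (beta U) N a χ := by
    intro r χ
    rw [B1_S4, ← hN]
    simp only [B1_D]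
    conv_rhs => rw [sum_comm]
    refine sum_congr rfl fun m hm => ?_
    rw [mem_Ioc] at hm
    conv_rhs => rw [sum_comm]
    refine sum_congr rfl fun n _ => ?_
    have hα : alpha U m = ∑ j ∈ range J,
        (if U * 2 ^ j < m ∧ m ≤ U * 2 ^ j + U * 2 ^ j then alpha U m else 0) := by
      have h1 := sum_dyadic U (fun n => if n = m then alpha U m else 0) J
      have h2 : ∀ A B : ℕ, ∑ n ∈ Ioc A B, (if n = m then alpha U m else 0) =
          if A < m ∧ m ≤ B then alpha U m else 0 := by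
        intro A B
        rw [sum_ite_eq']
        simp only [mem_Ioc]
      simp only [h2] at h1
      have h3 : (if U < m ∧ m ≤ U * 2 ^ J then alpha U m else 0) = alpha U m := by
        by_cases h : U < m
        · rw [if_pos ⟨h, hm.2.trans hNJ⟩]
        · rw [if_neg (fun h' => h h'.1), alpha_apply, if_pos (not_lt.1 h)]
      rw [h3] at h1
      refine h1.trans (sum_congr rfl fun j _ => ?_)
      have h4 : U * 2 ^ (j + 1) = U * 2 ^ j + U * 2 ^ j := by rw [pow_succ]; ring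
      rw [h4]
    conv_lhs => rw [hα]
    rw [← sum_mul, ← sum_mul, ← sum_mul]
    congr 3
    push_cast
    rw [sum_div]
  have h1 : ∑ i ∈ B1_S Q, (i.1 : ℝ) / Nat.totient i.1 * ‖S4 i.2 1 a U‖ ≤
      ∑ j ∈ range J, ∑ i ∈ B1_S Q, (i.1 : ℝ) / Nat.totient i.1 *
        ‖B1_D (fun m => if U * 2 ^ j < m ∧ m ≤ U * 2 ^ j + U * 2 ^ j then alpha U m else 0)
          (beta U) N a i.2‖ := by
    rw [sum_comm]
    refine sum_le_sum fun i _ => ?_
    rw [← mul_sum, hsplit]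
    exact mul_le_mul_of_nonneg_left (norm_sum_le _ _) (by positivity)
  refine h1.trans ?_
  have h2 : ∀ j ∈ range J, ∑ i ∈ B1_S Q, (i.1 : ℝ) / Nat.totient i.1 *
        ‖B1_D (fun m => if U * 2 ^ j < m ∧ m ≤ U * 2 ^ j + U * 2 ^ j then alpha U m else 0)
          (beta U) N a i.2‖ ≤ 15 * (a + 2) ^ 3 * H * I := fun j _ =>
    B1_block hc hi hV ha Q U (U * 2 ^ j) hU (Nat.le_mul_of_pos_right U (by positivity))
  refine (sum_le_sum h2).trans ?_
  rw [sum_const, card_range, nsmul_eq_mul]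
  have h3 : (J : ℝ) ≤ 5 * a := by linarith
  have h4 : (a + 2) ^ 3 ≤ (3 * a) ^ 3 := pow_le_pow_left₀ (by linarith) (by linarith) 3
  calc (J : ℝ) * (15 * (a + 2) ^ 3 * H * I) ≤ (5 * a) * (15 * (3 * a) ^ 3 * H * I) := by gcongr
    _ = 2025 * I * a ^ 4 * H := by ring
    _ ≤ 2025 * (I + 1) * a ^ 5 * H := by
        have : a ^ 4 ≤ a ^ 5 := pow_le_pow_right₀ ha (by norm_num)
        gcongr
        linarith

end Pool.Agent.helper85.FC
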