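import Pool.Agent.helper63.FC.B1

/-!
# FC project, module B2: all conductors, large conductors
-/

namespace Pool.Agent.helper85.FC

open Finset Real ArithmeticFunction Pool.Agent.helper39.MT Pool.Agent.helper85.MT

open Classical in
/-- B2: all conductors up to `Q`. -/
theorem TP_sum : ∃ C : ℝ, 0 < C ∧ ∀ a : ℝ, 1 ≤ a → ∀ Q U : ℕ, 6 ≤ U → (U : ℝ) ≤ Real.exp a →
    ∑ r ∈ Icc 2 Q, (r : ℝ) / Nat.totient r * TP a r
      ≤ C * a ^ 5 * (1 + Q / √U + (Q : ℝ) ^ 2 / Real.exp (a / 2)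
        + (Q : ℝ) ^ 3 * (U : ℝ) ^ 2 / Real.exp a) := by
  obtain ⟨K, hK0, hK⟩ := V_lip
  obtain ⟨C0, hC0, hII⟩ := typeII_bv
  refine ⟨24 * (K + 2) + C0, by positivity, ?_⟩
  intro a ha Q U hU6 hUa
  set N := NN 1 a with hN
  have hlog0 := Real.log_natCast_nonneg N
  have hlogN : Real.log N ≤ a + 1 := B1_logN ha
  have hU1 : 1 ≤ U := by omega
  set X := Real.exp (1 / 2 + a) with hX
  have hX0 : 0 < X := Real.exp_pos _
  have hXa : Real.exp a ≤ X := Real.exp_le_exp.mpr (by linarith)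
  have hUX : (U : ℝ) ≤ X := hUa.trans hXa
  have h1 : ∀ q ∈ Icc 2 Q, (q : ℝ) / Nat.totient q * TP a q
      ≤ (Q : ℝ) ^ 2 * (8 * (K + 2) * (1 + Real.log N) * U ^ 2 / X)
        + (q : ℝ) / Nat.totient q * ∑ χ : DirichletCharacter ℂ q with χ.IsPrimitive,
          ‖S4 χ 1 a U‖ := by
    intro q hq
    rw [mem_Icc] at hq
    have : NeZero q := ⟨by omega⟩
    have hq0 : (0 : ℝ) < q := by exact_mod_cast (by omega : 0 < q)
    have hφ : (0 : ℝ) < Nat.totient q := by exact_mod_cast Nat.totient_pos.mpr (by omega)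
    have h2 : TP a q
        ≤ ∑ χ : DirichletCharacter ℂ q with χ.IsPrimitive,
          (8 * (K + 2) * (1 + Real.log N) * U ^ 2 * q / X + ‖S4 χ 1 a U‖) := by
      unfold TP
      refine sum_le_sum fun χ hχ => ?_
      rw [mem_filter] at hχ
      have h3 := typeI_wt hK0 hK (a := a) le_rfl q χ (prim_ne_one hq.1 hχ.2) U hU1 hUX
      have h4 : ‖TT χ 1 a‖ ≤ ‖TT χ 1 a - S4 χ 1 a U‖ + ‖S4 χ 1 a U‖ := by
        have := norm_add_le (TT χ 1 a - S4 χ 1 a U) (S4 χ 1 a U)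
        rwa [sub_add_cancel] at this
      linarith
    refine (mul_le_mul_of_nonneg_left h2 (by positivity)).trans ?_
    rw [sum_add_distrib, mul_add]
    refine add_le_add ?_ le_rfl
    rw [sum_const, nsmul_eq_mul]
    have hqQ : (q : ℝ) ≤ Q := by exact_mod_cast hq.2
    calc (q : ℝ) / Nat.totient q * (((#{χ : DirichletCharacter ℂ q | χ.IsPrimitive} : ℕ) : ℝ)
          * (8 * (K + 2) * (1 + Real.log N) * U ^ 2 * q / X))
        ≤ (q : ℝ) / Nat.totient q * (Nat.totient q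
          * (8 * (K + 2) * (1 + Real.log N) * U ^ 2 * q / X)) := by
          refine mul_le_mul_of_nonneg_left ?_ (by positivity)
          exact mul_le_mul_of_nonneg_right (card_prim_le q) (by positivity)
      _ = (q : ℝ) ^ 2 * (8 * (K + 2) * (1 + Real.log N) * U ^ 2 / X) := by
          field_simp
      _ ≤ _ := by
          refine mul_le_mul_of_nonneg_right ?_ (by positivity)
          exact pow_le_pow_left₀ hq0.le hqQ 2
  refine (sum_le_sum h1).trans ?_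
  rw [sum_add_distrib]
  have h2 : ∑ q ∈ Icc 2 Q, (q : ℝ) / Nat.totient q
      * ∑ χ : DirichletCharacter ℂ q with χ.IsPrimitive, ‖S4 χ 1 a U‖
      ≤ C0 * a ^ 5 * (1 + Q / √U + (Q : ℝ) ^ 2 / Real.exp (a / 2)) := by
    refine le_trans ?_ (hII a ha Q U hU6)
    refine sum_le_sum_of_subset_of_nonneg (Icc_subset_Icc_left (by norm_num)) ?_
    intro q _ _
    exact mul_nonneg (by positivity) (sum_nonneg fun _ _ => norm_nonneg _)
  have h3 : ∑ q ∈ Icc 2 Q, (Q : ℝ) ^ 2 * (8 * (K + 2) * (1 + Real.log N) * U ^ 2 / X)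
      ≤ 24 * (K + 2) * a ^ 5 * ((Q : ℝ) ^ 3 * (U : ℝ) ^ 2 / Real.exp a) := by
    rw [sum_const, nsmul_eq_mul]
    have hc : ((#(Icc 2 Q) : ℕ) : ℝ) ≤ Q := by
      rw [Nat.card_Icc]
      exact_mod_cast (by omega : Q + 1 - 2 ≤ Q)
    have ha5 : a ≤ a ^ 5 := le_self_pow₀ ha (by norm_num)
    calc ((#(Icc 2 Q) : ℕ) : ℝ) * ((Q : ℝ) ^ 2 * (8 * (K + 2) * (1 + Real.log N) * U ^ 2 / X))
        ≤ (Q : ℝ) * ((Q : ℝ) ^ 2 * (8 * (K + 2) * (3 * a ^ 5) * U ^ 2 / Real.exp a)) := by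
          have h4 : 1 + Real.log N ≤ 3 * a ^ 5 := by linarith
          gcongr
      _ = _ := by ring
  have h5 : 0 ≤ (Q : ℝ) ^ 3 * (U : ℝ) ^ 2 / Real.exp a := by positivity
  have h6 : 0 ≤ 1 + Q / √U + (Q : ℝ) ^ 2 / Real.exp (a / 2) := by positivity
  have ha5 : 0 ≤ a ^ 5 := by positivity
  calc _ ≤ 24 * (K + 2) * a ^ 5 * ((Q : ℝ) ^ 3 * (U : ℝ) ^ 2 / Real.exp a)
        + C0 * a ^ 5 * (1 + Q / √U + (Q : ℝ) ^ 2 / Real.exp (a / 2)) := add_le_add h3 h2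
    _ ≤ (24 * (K + 2) + C0) * a ^ 5 * ((Q : ℝ) ^ 3 * (U : ℝ) ^ 2 / Real.exp a)
        + (24 * (K + 2) + C0) * a ^ 5 * (1 + Q / √U + (Q : ℝ) ^ 2 / Real.exp (a / 2)) := by
        gcongr <;> nlinarith
    _ = _ := by ring

/-- partial summation over the conductors -/
lemma B2_abel (u : ℕ → ℝ) (hu : ∀ r, 0 ≤ u r) (R₀ : ℕ) (hR : 1 ≤ R₀) (Q : ℕ) (hQ : R₀ + 1 ≤ Q) :
    ∑ r ∈ (Icc 2 Q).filter (fun r => R₀ < r), u r / r ≤
      (∑ r ∈ Icc 2 Q, u r) / Q + ∑ s ∈ Ico (R₀ + 1) Q, (∑ r ∈ Icc 2 s, u r) / (s * (s + 1)) := by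
  induction Q, hQ using Nat.le_induction with
  | base =>
    have h1 : (Icc 2 (R₀ + 1)).filter (fun r => R₀ < r) = {R₀ + 1} := by
      ext r
      rw [mem_filter, mem_Icc, mem_singleton]
      omega
    rw [h1, sum_singleton, Ico_self, sum_empty, add_zero]
    refine div_le_div_of_nonneg_right ?_ (Nat.cast_nonneg _)
    exact single_le_sum (f := u) (fun r _ => hu r) (mem_Icc.2 ⟨by omega, le_rfl⟩)
  | succ Q hQ ih =>
    have hQ0 : (0 : ℝ) < Q := by exact_mod_cast (by omega : 0 < Q)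
    have h1 : (Icc 2 (Q + 1)).filter (fun r => R₀ < r) =
        insert (Q + 1) ((Icc 2 Q).filter (fun r => R₀ < r)) := by
      ext r
      rw [mem_filter, mem_Icc, mem_insert, mem_filter, mem_Icc]
      omega
    have h2 : Icc 2 (Q + 1) = insert (Q + 1) (Icc 2 Q) := by
      ext r
      rw [mem_Icc, mem_insert, mem_Icc]
      omega
    have h3 : (Q + 1) ∉ (Icc 2 Q).filter (fun r => R₀ < r) := by
      rw [mem_filter, mem_Icc]; omega
    have h4 : (Q + 1) ∉ Icc 2 Q := by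
      rw [mem_Icc]; omega
    rw [h1, sum_insert h3, sum_Ico_succ_top hQ, h2, sum_insert h4]
    set G := ∑ r ∈ Icc 2 Q, u r with hG
    have h5 : u (Q + 1) / ((Q + 1 : ℕ) : ℝ) + (G / Q + ∑ s ∈ Ico (R₀ + 1) Q,
        (∑ r ∈ Icc 2 s, u r) / ((s : ℝ) * (s + 1))) = (u (Q + 1) + G) / ((Q + 1 : ℕ) : ℝ) +
        (∑ s ∈ Ico (R₀ + 1) Q, (∑ r ∈ Icc 2 s, u r) / ((s : ℝ) * (s + 1)) +
          G / (Q * (Q + 1))) := by
      push_cast
      field_simp
      ring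
    rw [← h5]
    linarith

lemma B2_tele (R₀ Q : ℕ) (hR : 1 ≤ R₀) (hQ : R₀ + 1 ≤ Q) :
    ∑ s ∈ Ico (R₀ + 1) Q, (1 : ℝ) / (s * (s + 1)) ≤ 1 / R₀ := by
  have h : ∀ Q, R₀ + 1 ≤ Q → ∑ s ∈ Ico (R₀ + 1) Q, (1 : ℝ) / (s * (s + 1)) =
      1 / (R₀ + 1) - 1 / Q := by
    intro Q hQ
    induction Q, hQ using Nat.le_induction with
    | base => simp
    | succ Q hQ ih =>
      have hQ0 : (0 : ℝ) < Q := by exact_mod_cast (by omega : 0 < Q)
      rw [sum_Ico_succ_top hQ, ih]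
      push_cast
      field_simp
      ring
  rw [h Q hQ]
  have hR0 : (0 : ℝ) < R₀ := by exact_mod_cast hR
  have h1 : (1 : ℝ) / (R₀ + 1) ≤ 1 / R₀ := by
    apply one_div_le_one_div_of_le hR0; linarith
  have h2 : (0 : ℝ) ≤ 1 / Q := by positivity
  linarith

lemma B2_harm (R₀ Q : ℕ) : ∑ s ∈ Ico (R₀ + 1) Q, (1 : ℝ) / (s + 1) ≤ 1 + Real.log Q := by
  have h1 : ∑ s ∈ Ico (R₀ + 1) Q, (1 : ℝ) / (s + 1) ≤ ∑ n ∈ Ioc 0 Q, (1 : ℝ) / n := by
    have h2 : ∑ s ∈ Ico (R₀ + 1) Q, (1 : ℝ) / (s + 1) =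
        ∑ n ∈ (Ico (R₀ + 1) Q).image (fun s : ℕ => s + 1), (1 : ℝ) / (n : ℝ) := by
      rw [sum_image (fun x _ y _ h => Nat.succ_injective h)]
      refine sum_congr rfl fun s _ => ?_
      push_cast
      rfl
    rw [h2]
    refine sum_le_sum_of_subset_of_nonneg ?_ fun n _ _ => by positivity
    intro n hn
    rw [mem_image] at hn
    obtain ⟨s, hs, rfl⟩ := hn
    rw [mem_Ico] at hs
    rw [mem_Ioc]
    omega
  exact h1.trans (Pool.Agent.helper85.BVP.harm_le Q)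

lemma B2_TP_nonneg (a : ℝ) (r : ℕ) : 0 ≤ TP a r := sum_nonneg fun _ _ => norm_nonneg _

/-- B2': large conductors. -/
theorem TP_large (ε : ℝ) (hε : 0 < ε) (hε1 : ε ≤ 1 / 4) : ∃ C a₁ : ℝ, 0 < C ∧ ∀ a : ℝ, a₁ ≤ a →
    ∀ R₀ Q : ℕ, 1 ≤ R₀ → (Q : ℝ) ≤ Real.exp ((1 / 2 - ε) * a) →
    ∑ r ∈ (Icc 2 Q).filter (fun r => R₀ < r), TP a r / Nat.totient r
      ≤ C * a ^ 6 * (1 / R₀ + Real.exp (-(ε * a / 16))) := by
  obtain ⟨C, hC, hTP⟩ := TP_sum
  refine ⟨16 * C, max 1 (8 / ε), by positivity, ?_⟩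
  intro a ha R₀ Q hR hQ
  have ha1 : 1 ≤ a := (le_max_left _ _).trans ha
  have ha0 : 0 < a := by linarith
  have hεa : 8 ≤ ε * a := by
    have := (le_max_right _ _).trans ha
    rw [div_le_iff₀ hε] at this
    linarith
  have hR0 : (0 : ℝ) < R₀ := by exact_mod_cast hR
  rcases lt_or_ge Q (R₀ + 1) with hQR | hQR
  · have h1 : (Icc 2 Q).filter (fun r => R₀ < r) = ∅ := by
      ext r
      rw [mem_filter, mem_Icc]
      simp
      omega
    rw [h1, sum_empty]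
    positivity
  have hQ0 : (0 : ℝ) < Q := by exact_mod_cast (by omega : 0 < Q)
  have hQ1 : (1 : ℝ) ≤ Q := by exact_mod_cast (by omega : 1 ≤ Q)
  have hRQ : (R₀ : ℝ) ≤ Q := by exact_mod_cast (by omega : R₀ ≤ Q)
  -- the parameter `U`
  set U := ⌊Real.exp (ε * a / 4)⌋₊ with hU
  have hUle : (U : ℝ) ≤ Real.exp (ε * a / 4) := Nat.floor_le (Real.exp_pos _).le
  have hexp2 : (7 : ℝ) ≤ Real.exp (ε * a / 4) := by
    have h1 : Real.exp 2 ≤ Real.exp (ε * a / 4) := Real.exp_le_exp.mpr (by linarith)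
    have h2 : Real.exp 2 = Real.exp 1 * Real.exp 1 := by rw [← Real.exp_add]; norm_num
    have h3 := Real.exp_one_gt_d9
    rw [h2] at h1
    have h4 : (27 / 10 : ℝ) * (27 / 10) ≤ Real.exp 1 * Real.exp 1 :=
      mul_le_mul (by linarith) (by linarith) (by norm_num) (Real.exp_pos 1).le
    linarith
  have hU6 : 6 ≤ U := by
    refine Nat.le_floor ?_
    push_cast
    linarith
  have hU6' : (6 : ℝ) ≤ U := by exact_mod_cast hU6
  have hUa : (U : ℝ) ≤ Real.exp a := by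
    refine hUle.trans (Real.exp_le_exp.mpr ?_)
    have := mul_le_mul_of_nonneg_right hε1 ha0.le
    linarith
  have hUlow : Real.exp (ε * a / 4) / 4 ≤ U := by
    have h1 := Nat.lt_floor_add_one (Real.exp (ε * a / 4))
    rw [← hU] at h1
    linarith
  have hsqrtU : 1 / √U ≤ 2 * Real.exp (-(ε * a / 8)) := by
    have h1 : Real.exp (ε * a / 8) / 2 ≤ √U := by
      apply Real.le_sqrt_of_sq_le
      rw [div_pow, ← Real.exp_nat_mul]
      have h2 : ((2 : ℕ) : ℝ) * (ε * a / 8) = ε * a / 4 := by push_cast; ring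
      rw [h2]
      linarith
    calc 1 / √U ≤ 1 / (Real.exp (ε * a / 8) / 2) := by gcongr
      _ = 2 * Real.exp (-(ε * a / 8)) := by rw [Real.exp_neg]; field_simp
  set u : ℕ → ℝ := fun r => (r : ℝ) / Nat.totient r * TP a r with hu
  have hu0 : ∀ r, 0 ≤ u r := fun r => mul_nonneg (by positivity) (B2_TP_nonneg a r)
  have h1 : ∑ r ∈ (Icc 2 Q).filter (fun r => R₀ < r), TP a r / Nat.totient r =
      ∑ r ∈ (Icc 2 Q).filter (fun r => R₀ < r), u r / r := by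
    refine sum_congr rfl fun r hr => ?_
    rw [mem_filter, mem_Icc] at hr
    have hr0 : (0 : ℝ) < r := by exact_mod_cast (by omega : 0 < r)
    simp only [hu]
    field_simp
  rw [h1]
  refine (B2_abel u hu0 R₀ hR Q hQR).trans ?_
  -- bound of each partial sum
  set e2 := Real.exp (-(a / 2)) with he2
  set e1 := Real.exp (-a) with he1
  have hG : ∀ s : ℕ, ∑ r ∈ Icc 2 s, u r ≤ C * a ^ 5 * (1 + s * (1 / √U) + (s : ℝ) ^ 2 * e2
      + (s : ℝ) ^ 3 * ((U : ℝ) ^ 2 * e1)) := by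
    intro s
    refine (hTP a ha1 s U hU6 hUa).trans (le_of_eq ?_)
    rw [he2, he1, Real.exp_neg, Real.exp_neg]
    ring
  have hmain : (∑ r ∈ Icc 2 Q, u r) / Q +
      ∑ s ∈ Ico (R₀ + 1) Q, (∑ r ∈ Icc 2 s, u r) / (s * (s + 1)) ≤
      C * a ^ 5 * (2 / R₀ + (2 + Real.log Q) * (1 / √U) + 2 * (Q * e2)
        + 2 * ((Q : ℝ) ^ 2 * ((U : ℝ) ^ 2 * e1))) := by
    have hA : (∑ r ∈ Icc 2 Q, u r) / Q ≤ C * a ^ 5 * (1 / R₀ + 1 / √U + Q * e2
        + (Q : ℝ) ^ 2 * ((U : ℝ) ^ 2 * e1)) := by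
      rw [div_le_iff₀ hQ0]
      refine (hG Q).trans ?_
      rw [mul_assoc (C * a ^ 5)]
      refine mul_le_mul_of_nonneg_left ?_ (by positivity)
      have h2 : (1 : ℝ) ≤ 1 / R₀ * Q := by
        rw [one_div, inv_mul_eq_div, le_div_iff₀ hR0]
        linarith
      calc 1 + (Q : ℝ) * (1 / √U) + (Q : ℝ) ^ 2 * e2 + (Q : ℝ) ^ 3 * ((U : ℝ) ^ 2 * e1)
          ≤ 1 / R₀ * Q + (Q : ℝ) * (1 / √U) + (Q : ℝ) ^ 2 * e2
            + (Q : ℝ) ^ 3 * ((U : ℝ) ^ 2 * e1) := by linarith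
        _ = _ := by ring
    have hB : ∀ s ∈ Ico (R₀ + 1) Q, (∑ r ∈ Icc 2 s, u r) / ((s : ℝ) * (s + 1)) ≤
        C * a ^ 5 * (1 / (s * (s + 1)) + 1 / √U * (1 / (s + 1)) + e2
          + Q * ((U : ℝ) ^ 2 * e1)) := by
      intro s hs
      rw [mem_Ico] at hs
      have hs0 : (0 : ℝ) < s := by exact_mod_cast (by omega : 0 < s)
      have hsQ : (s : ℝ) ≤ Q := by exact_mod_cast hs.2.le
      rw [div_le_iff₀ (by positivity)]
      refine (hG s).trans ?_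
      rw [mul_assoc (C * a ^ 5)]
      refine mul_le_mul_of_nonneg_left ?_ (by positivity)
      have e3 : (1 / ((s : ℝ) * (s + 1)) + 1 / √U * (1 / (s + 1)) + e2
          + Q * ((U : ℝ) ^ 2 * e1)) * (s * (s + 1)) = 1 + s * (1 / √U) + e2 * (s * (s + 1))
          + Q * ((U : ℝ) ^ 2 * e1) * (s * (s + 1)) := by
        field_simp
      rw [e3]
      have h3 : (s : ℝ) ^ 2 * e2 ≤ e2 * (s * (s + 1)) := by
        have : 0 ≤ e2 * s := by positivity
        have e' : e2 * ((s : ℝ) * (s + 1)) = (s : ℝ) ^ 2 * e2 + e2 * s := by ring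
        linarith
      have h4 : (s : ℝ) ^ 3 * ((U : ℝ) ^ 2 * e1) ≤ Q * ((U : ℝ) ^ 2 * e1) * (s * (s + 1)) := by
        have h5 : (s : ℝ) ^ 3 ≤ Q * (s * (s + 1)) := by
          have h6 : (s : ℝ) * s ≤ s * (s + 1) := mul_le_mul_of_nonneg_left (by linarith) hs0.le
          calc (s : ℝ) ^ 3 = s * (s * s) := by ring
            _ ≤ Q * (s * (s + 1)) := by gcongr
        have h7 : 0 ≤ (U : ℝ) ^ 2 * e1 := by positivity
        calc (s : ℝ) ^ 3 * ((U : ℝ) ^ 2 * e1) ≤ Q * (s * (s + 1)) * ((U : ℝ) ^ 2 * e1) := by gcongr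
          _ = _ := by ring
      linarith
    have hcard : ((#(Ico (R₀ + 1) Q) : ℕ) : ℝ) ≤ Q := by
      rw [Nat.card_Ico]
      exact_mod_cast Nat.sub_le _ _
    have hB2 : ∑ s ∈ Ico (R₀ + 1) Q, (∑ r ∈ Icc 2 s, u r) / ((s : ℝ) * (s + 1)) ≤
        C * a ^ 5 * (1 / R₀ + 1 / √U * (1 + Real.log Q) + Q * e2
          + (Q : ℝ) ^ 2 * ((U : ℝ) ^ 2 * e1)) := by
      refine (sum_le_sum hB).trans ?_
      rw [← mul_sum]
      refine mul_le_mul_of_nonneg_left ?_ (by positivity)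
      rw [sum_add_distrib, sum_add_distrib, sum_add_distrib, sum_const, sum_const, nsmul_eq_mul,
        nsmul_eq_mul, ← mul_sum]
      have h3 := B2_tele R₀ Q hR hQR
      have h4 := B2_harm R₀ Q
      have h5 : 0 ≤ 1 / √(U : ℝ) := by positivity
      calc _ ≤ 1 / (R₀ : ℝ) + 1 / √U * (1 + Real.log Q) + Q * e2
            + Q * (Q * ((U : ℝ) ^ 2 * e1)) := by gcongr
        _ = _ := by ring
    calc _ ≤ C * a ^ 5 * (1 / R₀ + 1 / √U + Q * e2
        + (Q : ℝ) ^ 2 * ((U : ℝ) ^ 2 * e1)) + C * a ^ 5 * (1 / R₀ + 1 / √U * (1 + Real.log Q)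
          + Q * e2 + (Q : ℝ) ^ 2 * ((U : ℝ) ^ 2 * e1)) := add_le_add hA hB2
      _ = _ := by ring
  refine hmain.trans ?_
  -- the numbers
  have hlogQ : Real.log Q ≤ a := by
    rw [Real.log_le_iff_le_exp hQ0]
    refine hQ.trans (Real.exp_le_exp.mpr ?_)
    have := mul_pos hε ha0
    linarith
  set e16 := Real.exp (-(ε * a / 16)) with he16
  have h2 : Real.exp (-(ε * a / 8)) ≤ e16 := Real.exp_le_exp.mpr (by linarith)
  have h3 : Q * e2 ≤ e16 := by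
    calc Q * e2 ≤ Real.exp ((1 / 2 - ε) * a) * e2 := by gcongr
      _ = Real.exp (-(ε * a)) := by rw [he2, ← Real.exp_add]; congr 1; ring
      _ ≤ e16 := Real.exp_le_exp.mpr (by linarith)
  have h4 : (Q : ℝ) ^ 2 * ((U : ℝ) ^ 2 * e1) ≤ e16 := by
    calc (Q : ℝ) ^ 2 * ((U : ℝ) ^ 2 * e1) ≤ Real.exp ((1 / 2 - ε) * a) ^ 2 *
          (Real.exp (ε * a / 4) ^ 2 * e1) := by gcongr
      _ = Real.exp (-(3 / 2 * (ε * a))) := by
          rw [he1, ← Real.exp_nat_mul, ← Real.exp_nat_mul, ← Real.exp_add, ← Real.exp_add]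
          congr 1; push_cast; ring
      _ ≤ e16 := Real.exp_le_exp.mpr (by linarith)
  have h16 : 0 < e16 := Real.exp_pos _
  have h5 : (2 + Real.log Q) * (1 / √U) ≤ 6 * a * e16 := by
    have h6 : 0 ≤ Real.log Q := Real.log_nonneg hQ1
    calc (2 + Real.log Q) * (1 / √U) ≤ (3 * a) * (2 * Real.exp (-(ε * a / 8))) := by
          apply mul_le_mul _ hsqrtU (by positivity) (by positivity)
          linarith
      _ ≤ (3 * a) * (2 * e16) := by gcongr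
      _ = 6 * a * e16 := by ring
  have h7 : 2 / (R₀ : ℝ) ≤ 16 * a * (1 / R₀) := by
    have : 0 ≤ 1 / (R₀ : ℝ) := by positivity
    calc 2 / (R₀ : ℝ) = 2 * (1 / R₀) := by ring
      _ ≤ 16 * a * (1 / R₀) := by
        refine mul_le_mul_of_nonneg_right ?_ this
        linarith
  have h8 : (2 / (R₀ : ℝ) + (2 + Real.log Q) * (1 / √U) + 2 * (Q * e2)
        + 2 * ((Q : ℝ) ^ 2 * ((U : ℝ) ^ 2 * e1))) ≤ 16 * a * (1 / R₀ + e16) := by
    have h9 : e16 ≤ a * e16 := le_mul_of_one_le_left h16.le ha1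
    have e' : 16 * a * (1 / (R₀ : ℝ) + e16) = 16 * a * (1 / R₀) + 16 * (a * e16) := by ring
    have e'' : 6 * a * e16 = 6 * (a * e16) := by ring
    linarith
  calc _ ≤ C * a ^ 5 * (16 * a * (1 / R₀ + e16)) :=
        mul_le_mul_of_nonneg_left h8 (by positivity)
    _ = _ := by ring

end Pool.Agent.helper85.FC
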